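import Mathlib
import Pool.Agent.Y734.I.StmsH

/-!
# Project Y734/I, job FAC: singular symmetric matrices and determinants of pencils
-/

set_option autoImplicit false

namespace Pool.Agent.Y734.I.FAC

open Pool.Agent.Y734.I

/-- factorization of a binary quadratic form -/
theorem bin (a b c : ℂ) : ∃ p0 p1 q0 q1 : ℂ, a = p0 * q0 + q0 * p0 ∧ b = p0 * q1 + q0 * p1 ∧
    c = p1 * q1 + q1 * p1 := by
  by_cases ha : a = 0
  · by_cases hb : b = 0
    · exact ⟨0, c / 2, 0, 1, by rw [ha]; ring, by rw [hb]; ring, by ring⟩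
    · exact ⟨0, b, 1, c / (2 * b), by rw [ha]; ring, by ring, by field_simp; ring⟩
  · obtain ⟨s, hs⟩ := IsAlgClosed.exists_eq_mul_self (b ^ 2 - a * c)
    exact ⟨a / 2, b - a / 2 * ((b + s) / a), 1, (b + s) / a, by ring, by ring, by
      field_simp
      linear_combination (-2) * hs⟩

/-- a symmetric matrix with a kernel vector with last coordinate nonzero -/
theorem fac_last (M : Matrix (Fin 3) (Fin 3) ℂ) (hM : ∀ j k, M j k = M k j) (h : Fin 3 → ℂ)
    (h2 : h 2 ≠ 0) (hk : ∀ j, M j 0 * h 0 + M j 1 * h 1 + M j 2 * h 2 = 0) :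
    ∃ p q : Fin 3 → ℂ, ∀ j k, M j k = p j * q k + q j * p k := by
  obtain ⟨p0, p1, q0, q1, ha, hb, hc⟩ := bin (M 0 0) (M 0 1) (M 1 1)
  obtain ⟨t0, ht0⟩ : ∃ t0, t0 = h 0 / h 2 := ⟨_, rfl⟩
  obtain ⟨t1, ht1⟩ : ∃ t1, t1 = h 1 / h 2 := ⟨_, rfl⟩
  have e0 : h 0 = t0 * h 2 := by rw [ht0]; field_simp
  have e1 : h 1 = t1 * h 2 := by rw [ht1]; field_simp
  have hk' : ∀ j, M j 2 = -(t0 * M j 0 + t1 * M j 1) := by
    intro j
    have h3 := hk j
    rw [e0, e1] at h3
    apply mul_right_cancel₀ h2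
    linear_combination h3
  have h02 := hk' 0
  have h12 := hk' 1
  have h22 := hk' 2
  have h10 := hM 1 0
  have h20 := hM 2 0
  have h21 := hM 2 1
  refine ⟨![p0, p1, -(t0 * p0 + t1 * p1)], ![q0, q1, -(t0 * q0 + t1 * q1)], ?_⟩
  intro j k
  fin_cases j <;> fin_cases k
  · show M 0 0 = p0 * q0 + q0 * p0
    exact ha
  · show M 0 1 = p0 * q1 + q0 * p1
    exact hb
  · show M 0 2 = p0 * -(t0 * q0 + t1 * q1) + q0 * -(t0 * p0 + t1 * p1)
    rw [h02, ha, hb]
    ring
  · show M 1 0 = p1 * q0 + q1 * p0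
    rw [h10, hb]
    ring
  · show M 1 1 = p1 * q1 + q1 * p1
    exact hc
  · show M 1 2 = p1 * -(t0 * q0 + t1 * q1) + q1 * -(t0 * p0 + t1 * p1)
    rw [h12, h10, hb, hc]
    ring
  · show M 2 0 = -(t0 * p0 + t1 * p1) * q0 + -(t0 * q0 + t1 * q1) * p0
    rw [h20, h02, ha, hb]
    ring
  · show M 2 1 = -(t0 * p0 + t1 * p1) * q1 + -(t0 * q0 + t1 * q1) * p1
    rw [h21, h12, h10, hb, hc]
    ring
  · show M 2 2 = -(t0 * p0 + t1 * p1) * -(t0 * q0 + t1 * q1) +
      -(t0 * q0 + t1 * q1) * -(t0 * p0 + t1 * p1)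
    rw [h22, h20, h21, h02, h12, h10, ha, hb, hc]
    ring

theorem fac : FacStmt := by
  intro M hM hdet
  have hsym : ∀ j k, M j k = M k j := fun j k => (hM.apply j k).symm
  obtain ⟨h, hne, hker⟩ := Matrix.exists_mulVec_eq_zero_iff.2 hdet
  obtain ⟨i, hi⟩ : ∃ i, h i ≠ 0 := by
    by_contra hcon
    push Not at hcon
    exact hne (funext hcon)
  obtain ⟨σ, hσ⟩ : ∃ σ : Equiv.Perm (Fin 3), σ = Equiv.swap i 2 := ⟨_, rfl⟩
  have hσ2 : σ 2 = i := by rw [hσ, Equiv.swap_apply_right]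
  obtain ⟨p, q, hpq⟩ := fac_last (M.submatrix σ σ) (fun j k => hsym _ _) (h ∘ σ)
    (by rw [Function.comp_apply, hσ2]; exact hi) (fun j => by
      have h1 := congrFun hker (σ j)
      rw [Matrix.mulVec, dotProduct, ← Equiv.sum_comp σ, Fin.sum_univ_three] at h1
      exact h1)
  refine ⟨p ∘ σ.symm, q ∘ σ.symm, fun j k => ?_⟩
  have h1 := hpq (σ.symm j) (σ.symm k)
  rw [Matrix.submatrix_apply, Equiv.apply_symm_apply, Equiv.apply_symm_apply] at h1
  exact h1

/-- contraction -/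
theorem contr (p q u v : Fin 3 → ℂ) (c : ℂ)
    (h : ∀ j k, p j * q k + q j * p k = c * (u j * v k + v j * u k)) (f g : Fin 3 → ℂ) :
    (∑ j, f j * p j) * (∑ k, g k * q k) + (∑ j, f j * q j) * (∑ k, g k * p k) =
      c * ((∑ j, f j * u j) * (∑ k, g k * v k) + (∑ j, f j * v j) * (∑ k, g k * u k)) := by
  have h1 : ∀ x y : Fin 3 → ℂ, (∑ j, f j * x j) * (∑ k, g k * y k) =
      ∑ j, ∑ k, f j * g k * (x j * y k) := by
    intro x y
    rw [Finset.sum_mul_sum]
    refine Finset.sum_congr rfl fun j _ => Finset.sum_congr rfl fun k _ => by ring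
  rw [h1, h1, h1, h1, ← Finset.sum_add_distrib, ← Finset.sum_add_distrib, Finset.mul_sum]
  refine Finset.sum_congr rfl fun j _ => ?_
  rw [← Finset.sum_add_distrib, ← Finset.sum_add_distrib, Finset.mul_sum]
  refine Finset.sum_congr rfl fun k _ => ?_
  linear_combination f j * g k * h j k

/-- vectors killed by all linear forms which kill `p` -/
theorem mult_of {p u : Fin 3 → ℂ} (hp : p ≠ 0)
    (h : ∀ f : Fin 3 → ℂ, ∑ j, f j * p j = 0 → ∑ j, f j * u j = 0) : ∃ b : ℂ, u = b • p := by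
  classical
  obtain ⟨i, hi⟩ : ∃ i, p i ≠ 0 := by
    by_contra hcon
    push Not at hcon
    exact hp (funext hcon)
  refine ⟨u i / p i, ?_⟩
  funext k
  have hs : ∀ x : Fin 3 → ℂ, ∑ j, (p i * (if j = k then 1 else 0) - p k * (if j = i then 1 else 0)) *
      x j = p i * x k - p k * x i := by
    intro x
    have h1 : ∀ j, (p i * (if j = k then 1 else 0) - p k * (if j = i then (1 : ℂ) else 0)) * x j =
        (if j = k then p i * x j else 0) - (if j = i then p k * x j else 0) := by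
      intro j
      split_ifs <;> ring
    simp only [h1, Finset.sum_sub_distrib, Finset.sum_ite_eq', Finset.mem_univ, if_true]
  have h2 := h _ (by rw [hs]; ring)
  rw [hs] at h2
  rw [Pi.smul_apply, smul_eq_mul, div_mul_eq_mul_div, eq_div_iff hi]
  linear_combination h2

theorem symeq : SymeqStmt := by
  intro p q u v c hc hp hq h
  -- the product is not zero
  have hne : u ≠ 0 ∧ v ≠ 0 := by
    by_contra hcon
    have h0 : ∀ j k, p j * q k + q j * p k = 0 := by
      intro j k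
      rw [h j k]
      by_cases hu : u = 0
      · rw [hu]
        simp
      · have hv : v = 0 := by
          by_contra hv
          exact hcon ⟨hu, hv⟩
        rw [hv]
        simp
    obtain ⟨i, hi⟩ : ∃ i, p i ≠ 0 := by
      by_contra hcon
      push Not at hcon
      exact hp (funext hcon)
    have hqi : q i = 0 := by
      have h1 := h0 i i
      have h2 : (2 * p i) * q i = 0 := by linear_combination h1
      rcases mul_eq_zero.1 h2 with h3 | h3
      · exact absurd ((mul_eq_zero.1 h3).resolve_left two_ne_zero) hi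
      · exact h3
    apply hq
    funext k
    have h1 := h0 i k
    rw [hqi, zero_mul, add_zero] at h1
    exact (mul_eq_zero.1 h1).resolve_left hi
  have hcon := contr p q u v c h
  by_cases hA : ∀ f : Fin 3 → ℂ, ∑ j, f j * p j = 0 → ∑ j, f j * u j = 0
  · left
    obtain ⟨b, hb⟩ := mult_of hp hA
    have hb0 : b ≠ 0 := by
      rintro rfl
      rw [zero_smul] at hb
      exact hne.1 hb
    refine ⟨b⁻¹, ?_⟩
    rw [hb, smul_smul, inv_mul_cancel₀ hb0, one_smul]
  · right
    push Not at hA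
    obtain ⟨f, hf1, hf2⟩ := hA
    have h1 := hcon f f
    rw [hf1, zero_mul, mul_zero, zero_add] at h1
    have hfv : ∑ j, f j * v j = 0 := by
      have h2 : (2 * c * ∑ j, f j * u j) * ∑ j, f j * v j = 0 := by linear_combination -h1
      rcases mul_eq_zero.1 h2 with h3 | h3
      · exfalso
        rcases mul_eq_zero.1 h3 with h4 | h4
        · exact hc ((mul_eq_zero.1 h4).resolve_left two_ne_zero)
        · exact hf2 h4
      · exact h3
    obtain ⟨b, hb⟩ := mult_of (u := v) hp fun g hg => by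
      have h2 := hcon f g
      rw [hf1, hg, hfv, zero_mul, mul_zero, zero_mul, add_zero, add_zero] at h2
      have h3 := (mul_eq_zero.1 h2.symm).resolve_left hc
      exact (mul_eq_zero.1 h3).resolve_left hf2
    have hb0 : b ≠ 0 := by
      rintro rfl
      rw [zero_smul] at hb
      exact hne.2 hb
    refine ⟨b⁻¹, ?_⟩
    rw [hb, smul_smul, inv_mul_cancel₀ hb0, one_smul]

/-! ### Determinants of pencils -/

/-- Laurent polynomials with many zeros vanish -/
theorem laurent (E : Finset ℤ) (c : ℤ → ℚ) (h : ∀ z : ℚ, z ≠ 0 → ∑ e ∈ E, c e * z ^ e = 0) :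
    ∀ e ∈ E, c e = 0 := by
  have hinj : Function.Injective fun e : ℤ => (Units.coeHom ℚ).comp (zpowGroupHom e : ℚˣ →* ℚˣ) := by
    intro a b hab
    have h1 := DFunLike.congr_fun hab (Units.mk0 (2 : ℚ) two_ne_zero)
    have h2 : (2 : ℚ) ^ a = (2 : ℚ) ^ b := by
      simpa [zpowGroupHom] using h1
    exact zpow_right_injective₀ (by norm_num) (by norm_num) h2
  have hli := (linearIndependent_monoidHom ℚˣ ℚ).comp _ hinj
  rw [linearIndependent_iff'] at hli
  refine hli E c ?_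
  funext z
  have h1 := h (z : ℚ) z.ne_zero
  rw [Finset.sum_apply]
  simpa [zpowGroupHom] using h1

theorem triple (W : Finset ℤ) (f g h : ℤ → ℚ) :
    (∑ a ∈ W, f a) * (∑ b ∈ W, g b) * (∑ c ∈ W, h c) =
      ∑ a ∈ W, ∑ b ∈ W, ∑ c ∈ W, f a * g b * h c := by
  rw [Finset.sum_mul_sum, Finset.sum_mul]
  refine Finset.sum_congr rfl fun a _ => ?_
  rw [Finset.sum_mul]
  refine Finset.sum_congr rfl fun b _ => ?_
  rw [Finset.mul_sum]

theorem det_pencil (W : Finset ℤ) (M : ℤ → Matrix (Fin 3) (Fin 3) ℚ) (z : ℚ) (hz : z ≠ 0) :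
    (∑ w ∈ W, z ^ w • M w).det =
      ∑ a ∈ W, ∑ b ∈ W, ∑ c ∈ W, z ^ (a + b + c) * D3 (M a) (M b) (M c) := by
  have hS : ∀ i j, (∑ w ∈ W, z ^ w • M w) i j = ∑ w ∈ W, z ^ w * M w i j := by
    intro i j
    rw [Matrix.sum_apply]
    rfl
  rw [Matrix.det_fin_three]
  simp only [hS, triple]
  simp only [← Finset.sum_sub_distrib, ← Finset.sum_add_distrib]
  refine Finset.sum_congr rfl fun a _ => Finset.sum_congr rfl fun b _ =>
    Finset.sum_congr rfl fun c _ => ?_
  unfold D3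
  rw [Matrix.det_fin_three, zpow_add₀ hz, zpow_add₀ hz]
  simp only [Matrix.of_apply, Matrix.cons_val_zero, Matrix.cons_val_one, Matrix.cons_val]
  ring

theorem det : DetStmt := by
  classical
  intro W M h e
  obtain ⟨co, hco⟩ : ∃ co : ℤ → ℚ, co = fun e => ∑ a ∈ W, ∑ b ∈ W, ∑ c ∈ W,
      (if a + b + c = e then D3 (M a) (M b) (M c) else 0) := ⟨_, rfl⟩
  obtain ⟨E, hE⟩ : ∃ E : Finset ℤ, E = insert e ((W ×ˢ W ×ˢ W).image fun t => t.1 + t.2.1 + t.2.2) :=
    ⟨_, rfl⟩
  have hmem : ∀ a ∈ W, ∀ b ∈ W, ∀ c ∈ W, a + b + c ∈ E := by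
    intro a ha b hb c hc
    rw [hE, Finset.mem_insert, Finset.mem_image]
    exact Or.inr ⟨(a, b, c), by simp [ha, hb, hc], rfl⟩
  have h1 : ∀ z : ℚ, z ≠ 0 → ∑ e ∈ E, co e * z ^ e = 0 := by
    intro z hz
    have h2 := h z hz
    rw [det_pencil W M z hz] at h2
    rw [← h2, hco]
    simp only [Finset.sum_mul]
    rw [Finset.sum_comm]
    refine Finset.sum_congr rfl fun a ha => ?_
    rw [Finset.sum_comm]
    refine Finset.sum_congr rfl fun b hb => ?_
    rw [Finset.sum_comm]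
    refine Finset.sum_congr rfl fun c hc => ?_
    simp only [ite_mul, zero_mul]
    rw [Finset.sum_ite_eq, if_pos (hmem a ha b hb c hc)]
    ring
  have h2 := laurent E co h1 e (by rw [hE]; exact Finset.mem_insert_self _ _)
  rw [hco] at h2
  exact h2

end Pool.Agent.Y734.I.FAC
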